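import Pool.Agent.Helper33.HU.Goals

/-! HU packet DIM: dimension of an algebra with the relations `F_v = 0`. -/

set_option autoImplicit false

namespace Pool.Agent.Helper30.HU

open Finset Pool.Agent.Helper33.HU

noncomputable section

/-- dimension along an exact sequence. -/
theorem fin_exact {U M W : Type} [AddCommGroup U] [Module ℂ U] [AddCommGroup M] [Module ℂ M]
    [AddCommGroup W] [Module ℂ W] (φ : U →ₗ[ℂ] M) (ψ : M →ₗ[ℂ] W)
    (h : LinearMap.ker ψ ≤ LinearMap.range φ) {a b : ℕ}
    (hU : Module.Finite ℂ U ∧ Module.finrank ℂ U ≤ a)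
    (hW : Module.Finite ℂ W ∧ Module.finrank ℂ W ≤ b) :
    Module.Finite ℂ M ∧ Module.finrank ℂ M ≤ a + b := by
  obtain ⟨hU1, hU2⟩ := hU
  obtain ⟨hW1, hW2⟩ := hW
  have h1 : Module.Finite ℂ (LinearMap.range φ) := inferInstance
  have h2 : Module.Finite ℂ (LinearMap.ker ψ) := Submodule.finiteDimensional_of_le h
  have h3 : Module.Finite ℂ (LinearMap.range ψ) := inferInstance
  have h4 : Module.Finite ℂ (M ⧸ LinearMap.ker ψ) :=
    Module.Finite.equiv ψ.quotKerEquivRange.symm
  have h5 : Module.Finite ℂ M := Module.Finite.of_submodule_quotient (LinearMap.ker ψ)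
  refine ⟨h5, ?_⟩
  have h6 := Submodule.finrank_quotient_add_finrank (R := ℂ) (LinearMap.ker ψ)
  have h7 : Module.finrank ℂ (LinearMap.ker ψ) ≤ a :=
    ((Submodule.finrank_mono h).trans φ.finrank_range_le).trans hU2
  have h8 : Module.finrank ℂ (M ⧸ LinearMap.ker ψ) ≤ b := by
    rw [ψ.quotKerEquivRange.finrank_eq]
    exact (Submodule.finrank_le _).trans hW2
  omega

/-- the claim on the dimension of `B/(f)`. -/
def DimLe {B : Type} [CommRing B] [Algebra ℂ B] (f : B) (d : ℕ) : Prop :=
  Module.Finite ℂ (B ⧸ Ideal.span {f}) ∧ Module.finrank ℂ (B ⧸ Ideal.span {f}) ≤ d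

theorem dimLe_mul {B : Type} [CommRing B] [Algebra ℂ B] {f g : B} {a b : ℕ} (hf : DimLe f a)
    (hg : DimLe g b) : DimLe (f * g) (a + b) := by
  -- the first map
  let φ₀ : B →ₗ[ℂ] B ⧸ Ideal.span {f * g} :=
    (Ideal.Quotient.mkₐ ℂ (Ideal.span {f * g})).toLinearMap.comp (LinearMap.mulLeft ℂ g)
  have hφ₀ : (Ideal.span {f}).restrictScalars ℂ ≤ LinearMap.ker φ₀ := by
    intro x hx
    have hx' : x ∈ Ideal.span {f} := hx
    obtain ⟨c, rfl⟩ := Ideal.mem_span_singleton'.mp hx'
    rw [LinearMap.mem_ker]
    change Ideal.Quotient.mk (Ideal.span {f * g}) (g * (c * f)) = 0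
    rw [Ideal.Quotient.eq_zero_iff_mem]
    exact Ideal.mem_span_singleton'.mpr ⟨c, by ring⟩
  let φ : (B ⧸ Ideal.span {f}) →ₗ[ℂ] B ⧸ Ideal.span {f * g} :=
    ((Ideal.span {f}).restrictScalars ℂ).liftQ φ₀ hφ₀
  -- the second map
  have hle : Ideal.span {f * g} ≤ Ideal.span {g} := by
    rw [Ideal.span_singleton_le_span_singleton]
    exact Dvd.intro_left f rfl
  let ψ : (B ⧸ Ideal.span {f * g}) →ₗ[ℂ] B ⧸ Ideal.span {g} :=
    (Ideal.Quotient.factorₐ ℂ hle).toLinearMap
  have hker : LinearMap.ker ψ ≤ LinearMap.range φ := by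
    intro x hx
    obtain ⟨b, rfl⟩ := Ideal.Quotient.mk_surjective x
    have h1 : Ideal.Quotient.mk (Ideal.span {g}) b = 0 := hx
    rw [Ideal.Quotient.eq_zero_iff_mem] at h1
    obtain ⟨c, rfl⟩ := Ideal.mem_span_singleton'.mp h1
    refine ⟨Ideal.Quotient.mk (Ideal.span {f}) c, ?_⟩
    change Ideal.Quotient.mk (Ideal.span {f * g}) (g * c) = _
    rw [mul_comm g c]
  exact fin_exact φ ψ hker hf hg

theorem dimLe_one {B : Type} [CommRing B] [Algebra ℂ B] : DimLe (1 : B) 0 := by
  have h : Subsingleton (B ⧸ Ideal.span {(1 : B)}) := by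
    rw [Ideal.span_singleton_one]
    exact Ideal.Quotient.subsingleton_iff.mpr rfl
  exact ⟨inferInstance, by rw [Module.finrank_zero_of_subsingleton]⟩

theorem dimLe_prod {B ι : Type} [CommRing B] [Algebra ℂ B] [DecidableEq ι] (T : Finset ι)
    (f : ι → B) (d : ℕ) (h : ∀ c ∈ T, DimLe (f c) d) :
    DimLe (∏ c ∈ T, f c) (T.card * d) := by
  induction T using Finset.induction_on with
  | empty =>
    rw [Finset.prod_empty, Finset.card_empty, zero_mul]
    exact dimLe_one
  | insert c T hc ih =>
    rw [Finset.prod_insert hc, Finset.card_insert_of_notMem hc, add_mul, one_mul, add_comm]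
    exact dimLe_mul (h c (Finset.mem_insert_self c T))
      (ih fun c' hc' => h c' (Finset.mem_insert_of_mem hc'))

theorem dimLe_zero {B : Type} [CommRing B] [Algebra ℂ B] {d : ℕ} (h : DimLe (0 : B) d) :
    Module.Finite ℂ B ∧ Module.finrank ℂ B ≤ d := by
  obtain ⟨h1, h2⟩ := h
  let e : B →ₗ[ℂ] B ⧸ Ideal.span {(0 : B)} :=
    (Ideal.Quotient.mkₐ ℂ (Ideal.span {(0 : B)})).toLinearMap
  have he : LinearMap.ker e ≤ LinearMap.range (0 : (PUnit : Type) →ₗ[ℂ] B) := by
    intro x hx
    have hx' : Ideal.Quotient.mk (Ideal.span {(0 : B)}) x = 0 := hx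
    rw [Ideal.Quotient.eq_zero_iff_mem, Ideal.span_singleton_eq_bot.mpr rfl] at hx'
    rw [(Submodule.mem_bot B).mp hx']
    exact zero_mem _
  have h3 := fin_exact (0 : (PUnit : Type) →ₗ[ℂ] B) e he
    (a := 0) ⟨inferInstance, by rw [Module.finrank_zero_of_subsingleton]⟩ ⟨h1, h2⟩
  rwa [zero_add] at h3

/-- generators of a quotient. -/
theorem adjoin_quot {B ι : Type} [CommRing B] [Algebra ℂ B] [DecidableEq ι] (V : Finset ι)
    (o : ι) (z : ι → B) (I : Ideal B) (hz : Algebra.adjoin ℂ (z '' (V : Set ι)) = ⊤)
    (ho : Ideal.Quotient.mk I (z o) ∈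
      Algebra.adjoin ℂ ((fun i => Ideal.Quotient.mk I (z i)) '' ((V.erase o : Finset ι) : Set ι))) :
    Algebra.adjoin ℂ ((fun i => Ideal.Quotient.mk I (z i)) '' ((V.erase o : Finset ι) : Set ι))
      = ⊤ := by
  rw [eq_top_iff]
  have h1 : (⊤ : Subalgebra ℂ (B ⧸ I)) =
      (⊤ : Subalgebra ℂ B).map (Ideal.Quotient.mkₐ ℂ I) := by
    rw [Algebra.map_top]
    exact ((AlgHom.range_eq_top _).mpr Ideal.Quotient.mk_surjective).symm
  rw [h1, ← hz, AlgHom.map_adjoin]
  refine Algebra.adjoin_le ?_
  rintro _ ⟨_, ⟨i, hi, rfl⟩, rfl⟩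
  by_cases hio : i = o
  · subst hio
    exact ho
  · exact Algebra.subset_adjoin ⟨i, Finset.mem_coe.mpr (Finset.mem_erase.mpr ⟨hio, hi⟩), rfl⟩

/-- the window. -/
abbrev wd {ι : Type} (V : Finset ι) (p : ι → ℤ) (n : ℤ) (v : ι) : Finset ι :=
  V.filter (fun k => p v < p k ∧ p k < p v + n)

theorem gDIM : G_DIM := by
  intro ι _ V
  induction hN : V.card generalizing V with
  | zero =>
    intro p n r m B _ _ z hinj hr hmono hm hz hrel
    have hV : V = ∅ := Finset.card_eq_zero.mp hN
    subst hV
    rw [Finset.coe_empty, Set.image_empty, Algebra.adjoin_empty] at hz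
    have hs : Function.Surjective (Algebra.linearMap ℂ B) := by
      intro b
      have hb : b ∈ (⊥ : Subalgebra ℂ B) := by rw [hz]; exact Algebra.mem_top
      obtain ⟨c, hc⟩ := Algebra.mem_bot.mp hb
      exact ⟨c, hc⟩
    refine ⟨Module.Finite.of_surjective _ hs, ?_⟩
    rw [Finset.prod_empty]
    have := LinearMap.finrank_le_finrank_of_surjective hs
    rwa [Module.finrank_self] at this
  | succ N ih =>
    intro p n r m B _ _ z hinj hr hmono hm hz hrel
    have hne : V.Nonempty := Finset.card_pos.mp (by omega)
    obtain ⟨o, hoV, homin⟩ := Finset.exists_min_image V p hne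
    have hlt : ∀ v ∈ V.erase o, p o < p v := by
      intro v hv
      obtain ⟨hv1, hv2⟩ := Finset.mem_erase.mp hv
      refine lt_of_le_of_ne (homin v hv2) fun h => hv1 ?_
      exact (hinj (Finset.mem_coe.mpr hoV) (Finset.mem_coe.mpr hv2) h).symm
    have hcard : (V.erase o).card = N := by rw [Finset.card_erase_of_mem hoV]; omega
    -- windows
    have hwin : ∀ v ∈ V.erase o, wd (V.erase o) p n v = wd V p n v := by
      intro v hv
      ext k
      rw [Finset.mem_filter, Finset.mem_filter, Finset.mem_erase]
      constructor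
      · rintro ⟨⟨-, h1⟩, h2⟩
        exact ⟨h1, h2⟩
      · rintro ⟨h1, h2⟩
        refine ⟨⟨?_, h1⟩, h2⟩
        rintro rfl
        exact absurd (hlt v hv) (not_lt.mpr h2.1.le)
    have hfil : ∀ v ∈ V.erase o, V.filter (fun i => p i ≤ p v) =
        insert o ((V.erase o).filter (fun i => p i ≤ p v)) := by
      intro v hv
      ext k
      rw [Finset.mem_insert, Finset.mem_filter, Finset.mem_filter, Finset.mem_erase]
      constructor
      · rintro ⟨h1, h2⟩
        by_cases hk : k = o
        · exact Or.inl hk
        · exact Or.inr ⟨⟨hk, h1⟩, h2⟩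
      · rintro (rfl | ⟨⟨-, h1⟩, h2⟩)
        · exact ⟨hoV, (hlt v hv).le⟩
        · exact ⟨h1, h2⟩
    have hnot : ∀ v, o ∉ (V.erase o).filter (fun i => p i ≤ p v) := by
      intro v h
      exact absurd rfl (Finset.mem_erase.mp (Finset.mem_filter.mp h).1).1
    have hsub : ∀ v ∈ V.erase o, v ∈ V := fun v hv => Finset.mem_of_mem_erase hv
    set P : ℕ := ∏ v ∈ V.erase o, ((wd V p n v).card + r v) with hP
    -- the factors z_o - z_c
    have hfac : ∀ c ∈ wd V p n o, DimLe (z o - z c) P := by
      intro c hc
      obtain ⟨hcV, hc1, hc2⟩ := Finset.mem_filter.mp hc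
      have hco : c ≠ o := by
        rintro rfl
        exact lt_irrefl _ hc1
      have hcW : c ∈ V.erase o := Finset.mem_erase.mpr ⟨hco, hcV⟩
      set I : Ideal B := Ideal.span {z o - z c} with hI
      have hoc : Ideal.Quotient.mk I (z o) = Ideal.Quotient.mk I (z c) := by
        rw [Ideal.Quotient.eq]
        exact Ideal.mem_span_singleton_self _
      have hres := ih (V.erase o) hcard p n r (fun i => if i = c then m c + m o else m i)
        (B ⧸ I) (fun i => Ideal.Quotient.mk I (z i))
        (hinj.mono (Finset.coe_subset.mpr (Finset.erase_subset o V)))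
        (fun v hv => hr v (hsub v hv))
        (fun u hu v hv h => hmono u (hsub u hu) v (hsub v hv) h)
        (by
          intro v hv
          by_cases hvc : v = c
          · rw [if_pos hvc]
            have := hm o hoV
            omega
          · rw [if_neg hvc]
            exact hm v (hsub v hv))
        (by
          refine adjoin_quot V o z I hz ?_
          rw [hoc]
          exact Algebra.subset_adjoin ⟨c, Finset.mem_coe.mpr hcW, rfl⟩)
        (by
          intro v hv
          have h1 := congrArg (Ideal.Quotient.mk I) (hrel v (hsub v hv))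
          rw [hfil v hv, Finset.sum_insert (hnot v), map_zero, map_add, map_sum] at h1
          have h2 := hwin v hv
          unfold wd at h2
          rw [h2]
          set G : ι → B ⧸ I := fun i => Ideal.Quotient.mk I (z i) ^ r v *
            ∏ k ∈ V.filter (fun k => p v < p k ∧ p k < p v + n),
              (Ideal.Quotient.mk I (z i) - Ideal.Quotient.mk I (z k)) with hG
          have h3 : ∀ i, Ideal.Quotient.mk I ((m i : B) * (z i ^ r v *
              ∏ k ∈ V.filter (fun k => p v < p k ∧ p k < p v + n), (z i - z k))) =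
              (m i : B ⧸ I) * G i := by
            intro i
            rw [map_mul, map_mul, map_pow, map_prod, map_natCast]
            simp only [map_sub, hG]
          rw [h3] at h1
          simp only [h3] at h1
          have hGo : G o = G c := by
            simp only [hG, hoc]
          have h4 : ∑ i ∈ (V.erase o).filter (fun i => p i ≤ p v),
              (((if i = c then m c + m o else m i : ℕ) : B ⧸ I)) * G i =
              ∑ i ∈ (V.erase o).filter (fun i => p i ≤ p v), (m i : B ⧸ I) * G i +
              ∑ i ∈ (V.erase o).filter (fun i => p i ≤ p v),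
                (if i = c then (m o : B ⧸ I) * G i else 0) := by
            rw [← Finset.sum_add_distrib]
            refine Finset.sum_congr rfl fun i _ => ?_
            split_ifs with hic
            · subst hic
              push_cast
              ring
            · rw [add_zero]
          have h5 : ∑ i ∈ (V.erase o).filter (fun i => p i ≤ p v),
                (if i = c then (m o : B ⧸ I) * G i else 0) = (m o : B ⧸ I) * G c := by
            rw [Finset.sum_ite_eq']
            split_ifs with hcv
            · rfl
            · have hcv' : p v < p c := by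
                by_contra hcon
                exact hcv (Finset.mem_filter.mpr ⟨hcW, not_lt.mp hcon⟩)
              have hG0 : G c = 0 := by
                simp only [hG]
                rw [Finset.prod_eq_zero (i := c), mul_zero]
                · refine Finset.mem_filter.mpr ⟨hcV, hcv', ?_⟩
                  have := hlt v hv
                  omega
                · rw [sub_self]
              rw [hG0, mul_zero]
          refine Eq.trans h4 ?_
          rw [h5, ← hGo, add_comm]
          exact h1)
      refine ⟨hres.1, hres.2.trans (le_of_eq ?_)⟩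
      rw [hP]
      refine Finset.prod_congr rfl fun v hv => ?_
      have h2 := hwin v hv
      unfold wd at h2
      unfold wd
      rw [h2]
    -- the factor z_o
    have hroot : r o = 1 → DimLe (z o) P := by
      intro hro
      set I : Ideal B := Ideal.span {z o} with hI
      have ho0 : Ideal.Quotient.mk I (z o) = 0 := by
        rw [Ideal.Quotient.eq_zero_iff_mem]
        exact Ideal.mem_span_singleton_self _
      have hres := ih (V.erase o) hcard p n r m
        (B ⧸ I) (fun i => Ideal.Quotient.mk I (z i))
        (hinj.mono (Finset.coe_subset.mpr (Finset.erase_subset o V)))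
        (fun v hv => hr v (hsub v hv))
        (fun u hu v hv h => hmono u (hsub u hu) v (hsub v hv) h)
        (fun v hv => hm v (hsub v hv))
        (by
          refine adjoin_quot V o z I hz ?_
          rw [ho0]
          exact zero_mem _)
        (by
          intro v hv
          have hrv : r v = 1 := by
            have h1 := hmono o hoV v (hsub v hv) (hlt v hv).le
            have h2 := hr v (hsub v hv)
            omega
          have h1 := congrArg (Ideal.Quotient.mk I) (hrel v (hsub v hv))
          rw [hfil v hv, Finset.sum_insert (hnot v), map_zero, map_add, map_sum] at h1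
          have h2 := hwin v hv
          unfold wd at h2
          rw [h2]
          set G : ι → B ⧸ I := fun i => Ideal.Quotient.mk I (z i) ^ r v *
            ∏ k ∈ V.filter (fun k => p v < p k ∧ p k < p v + n),
              (Ideal.Quotient.mk I (z i) - Ideal.Quotient.mk I (z k)) with hG
          have h3 : ∀ i, Ideal.Quotient.mk I ((m i : B) * (z i ^ r v *
              ∏ k ∈ V.filter (fun k => p v < p k ∧ p k < p v + n), (z i - z k))) =
              (m i : B ⧸ I) * G i := by
            intro i
            rw [map_mul, map_mul, map_pow, map_prod, map_natCast]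
            simp only [map_sub, hG]
          rw [h3] at h1
          simp only [h3] at h1
          have hGo : G o = 0 := by
            simp only [hG]
            rw [ho0, hrv, pow_one, zero_mul]
          rw [hGo, mul_zero, zero_add] at h1
          exact h1)
      refine ⟨hres.1, hres.2.trans (le_of_eq ?_)⟩
      rw [hP]
      refine Finset.prod_congr rfl fun v hv => ?_
      have h2 := hwin v hv
      unfold wd at h2
      unfold wd
      rw [h2]
    -- the relation of o
    have hrelo : z o ^ r o * ∏ k ∈ wd V p n o, (z o - z k) = 0 := by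
      have h1 := hrel o hoV
      have h2 : V.filter (fun i => p i ≤ p o) = {o} := by
        ext k
        rw [Finset.mem_filter, Finset.mem_singleton]
        constructor
        · rintro ⟨h3, h4⟩
          by_contra hk
          exact absurd (hlt k (Finset.mem_erase.mpr ⟨hk, h3⟩)) (not_lt.mpr h4)
        · rintro rfl
          exact ⟨hoV, le_rfl⟩
      rw [h2, Finset.sum_singleton] at h1
      have h3 : ((m o : ℂ)) ≠ 0 := by
        have := hm o hoV
        exact Nat.cast_ne_zero.mpr (by omega)
      have h4 : (m o : B) = algebraMap ℂ B (m o : ℂ) := by rw [map_natCast]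
      rw [h4, ← Algebra.smul_def] at h1
      exact (smul_eq_zero.mp h1).resolve_left h3
    have hprod : ∏ v ∈ V, ((V.filter (fun k => p v < p k ∧ p k < p v + n)).card + r v) =
        ((wd V p n o).card + r o) * P := by
      rw [hP, ← Finset.mul_prod_erase V _ hoV]
    rw [hprod]
    refine dimLe_zero ?_
    rw [← hrelo, add_mul, add_comm]
    refine dimLe_mul ?_ (dimLe_prod _ _ _ hfac)
    have hro := hr o hoV
    rcases Nat.lt_or_ge (r o) 1 with h0 | h0
    · have h1 : r o = 0 := by omega
      rw [h1, pow_zero, zero_mul]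
      exact dimLe_one
    · have h1 : r o = 1 := by omega
      rw [h1, pow_one, one_mul]
      exact hroot h1

end

end Pool.Agent.Helper30.HU
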